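import Pool.Agent.Zeros.Main
import Pool.Agent.Zeros.Width

/-!
# A monotone language in NP and in exponential time, hard for circuits of large negation width

Definitions.

* `Pool/Agent/NegLim/Defs.lean`: a circuit over the variables `V` is a list of AND, OR (fan-in
  two) and NOT gates reading variables, constants and outputs of earlier gates; `Circuit.size`
  counts all gates, and `C.val x out` is the value of the wire `out` at the input `x`.
* `Pool/Agent/Zeros/KDefs.lean`: `C.kval ρ out` is the three-valued (Kleene) value of the wire
  `out` at the partial input `ρ`, and `C.AcceptsWithZeros out x k` says that for some set `S` of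
  at most `k` variables the partial input `onesAnd x S`, in which all ones of `x` are known but
  only the zeros of `x` in `S`, already has the three-valued value `true`.
* `Pool/Agent/Zeros/WDefs.lean`: `C.DeMorgan` says that all NOT gates are applied to variables,
  and `C.NegWidthLe out k` that the negation width (Jukna and Lingas) is at most `k`: no nonzero
  term produced by the circuit contains more than `k` distinct negated variables.
* `DecidableInTime L t` (`Pool/Agent/NegLim/ExpTime.lean`): a Turing machine (Mathlib's `FinTM2`)
  decides `L` in time `t n` on words of length `n`.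
* `InNP L` (`Pool/Agent/NegLim/NPDefs.lean`): a polynomial-time Turing machine verifies
  certificates of polynomial length.
-/

namespace Pool.Agent.Results.MP_5f97e6_lc.FewZeros

open Pool.Agent.NegLim Finset

open Classical in
/-- (1) An input accepted by a circuit on `n` variables is accepted reading at most `n` zeros,
and reading at most `k` zeros if it is a De Morgan circuit of negation width at most `k`.

(2) There is a language `L` in time `O(2 ^ n)` and in NP, monotone on the words of each length,
such that for all `t ≥ 2`, all `ε > 0` and all large `n` there is a nonempty set `A` of words of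
length `n` in `L` with the following property. Let `C` be a circuit with at most
`2 ^ (n ^ (1 / t - ε))` gates which accepts only words of `L`. Then `C` accepts at most a fraction
`2 ^ (- n ^ (1 / t - ε))` of the words in `A` reading at most `n ^ (1 - 1 / t - ε)` zeros. -/
theorem result :
    (∀ (n : ℕ) (C : Circuit (Fin n)) (out : Wire (Fin n)) (x : Fin n → Bool),
      C.val x out = true → C.AcceptsWithZeros out x n ∧
        ∀ k : ℝ, C.DeMorgan → C.NegWidthLe out k → C.AcceptsWithZeros out x k) ∧
    ∃ L : List Bool → Bool, (∃ c : ℕ, DecidableInTime L (fun n => c * 2 ^ n)) ∧ InNP L ∧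
      (∀ n : ℕ, Monotone fun x : Fin n → Bool => L (List.ofFn x)) ∧
      ∀ t : ℕ, 2 ≤ t → ∀ ε : ℝ, 0 < ε →
        ∃ n₀ : ℕ, ∀ n ≥ n₀, ∃ A : Finset (Fin n → Bool), A.Nonempty ∧
          (∀ x ∈ A, L (List.ofFn x) = true) ∧
          ∀ (C : Circuit (Fin n)) (out : Wire (Fin n)),
            (∀ x, C.val x out = true → L (List.ofFn x) = true) →
            (C.size : ℝ) ≤ 2 ^ ((n : ℝ) ^ ((1 : ℝ) / t - ε)) →
            ((A.filter (fun x =>
                C.AcceptsWithZeros out x ((n : ℝ) ^ (1 - (1 : ℝ) / t - ε)))).card : ℝ)
              ≤ 2 ^ (-(n : ℝ) ^ ((1 : ℝ) / t - ε)) * A.card := by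
  refine ⟨fun n C out x h => ⟨⟨univ, by simp, ?_⟩, fun k hC hk =>
    Circuit.acceptsWithZeros_of_negWidth hC hk h⟩, ?_⟩
  · have h1 : onesAnd x univ = fun v => some (x v) := by
      funext v
      unfold onesAnd
      cases x v <;> simp
    rw [h1, C.kval_total, h]
  · obtain ⟨d, hd, hc⟩ := Zeros.zlang_time
    exact ⟨Zeros.zlang d, hc, Zeros.zlang_inNP d, Zeros.zlang_mono d,
      fun t ht ε hε => Zeros.z_main d hd t ht ε hε⟩

end Pool.Agent.Results.MP_5f97e6_lc.FewZeros
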